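import Pool.Agent.U84.AWQ.Stm
import Pool.Agent.R456.CL.Base3

/-!
# Project AWQ, package FINC (helper796): complements of equivalent projections in a finite projection

Adaptation of `fin_compl` in `Pool/Agent/R456/CL/Base3.lean`.
-/

set_option autoImplicit false

namespace Pool.Agent.U796.AWQ

open Pool.Agent.R456.CL Pool.Agent.U84.AWQ

universe u

section

variable {A : Type u} [CStarAlgebra A]

/-- the case in which the first complement is below the second -/
lemma half {g k h v : A} (hg : PJ g) (hk : PJ k) (hh : PJ h)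
    (hkg : Le k g) (hhg : Le h g) (hfin : ¬ Infin g) (hv1 : star v * v = k)
    (hv2 : v * star v = h) (hs : Sub (g - k) (g - h)) : Eqv (g - k) (g - h) := by
  have hpe : PJ (g - k) := pj_sub hk hg hkg
  have hpf : PJ (g - h) := pj_sub hh hg hhg
  obtain ⟨o1, o2⟩ : k * (g - k) = 0 ∧ (g - k) * k = 0 := by
    constructor
    · rw [mul_sub, hkg, PJ.mul_self hk, sub_self]
    · rw [sub_mul, hkg.rev hk hg, PJ.mul_self hk, sub_self]
  obtain ⟨o3, o4⟩ : h * (g - h) = 0 ∧ (g - h) * h = 0 := by
    constructor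
    · rw [mul_sub, hhg, PJ.mul_self hh, sub_self]
    · rw [sub_mul, hhg.rev hh hg, PJ.mul_self hh, sub_self]
  have hhv : h * v = v := pi_left hk hv1 hv2
  have hvk : v * k = v := pi_right hk hv1
  have hsvh : star v * h = star v := star_absorb_left hh hhv
  have hksv : k * star v = star v := star_absorb_right hk hvk
  have hehg : (g - h) * g = g - h := by rw [sub_mul, PJ.mul_self hg, hhg]
  obtain ⟨u, hu1, hu2⟩ := hs
  have hfu : (g - h) * u = u := pi_le hpe hpf hu1 hu2
  have hue : u * (g - k) = u := pi_right hpe hu1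
  have hsuf : star u * (g - h) = star u := star_absorb_left hpf hfu
  have hesu : (g - k) * star u = star u := star_absorb_right hpe hue
  have c1 : star v * u = 0 := by
    rw [← hsvh, ← hfu, mul_assoc, ← mul_assoc h, o3, zero_mul, mul_zero]
  have c2 : star u * v = 0 := by
    rw [← hsuf, ← hhv, mul_assoc, ← mul_assoc (g - h), o4, zero_mul, mul_zero]
  have c3 : v * star u = 0 := by
    rw [← hvk, ← hesu, mul_assoc, ← mul_assoc k, o1, zero_mul, mul_zero]
  have c4 : u * star v = 0 := by
    rw [← hue, ← hksv, mul_assoc, ← mul_assoc (g - k), o2, zero_mul, mul_zero]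
  have z1 : star (v + u) * (v + u) = g := by
    rw [star_add, add_mul, mul_add, mul_add, hv1, c1, c2, hu1]; abel
  have z2 : (v + u) * star (v + u) = h + u * star u := by
    rw [star_add, add_mul, mul_add, mul_add, hv2, c3, c4]; abel
  by_cases hne : h + u * star u = g
  · exact ⟨u, hu1, by rw [← hne]; abel⟩
  · exfalso
    apply hfin
    refine ⟨v + u, z1, ?_, by rw [z2]; exact hne⟩
    rw [z2, add_mul, hhg, ← hu2, mul_assoc, hehg, hu2]

lemma cp_compl {z : A} (hz : CP z) : CP (1 - z) := by
  refine ⟨pj_sub hz.1 ⟨by simp [IsIdempotentElem], by simp [IsSelfAdjoint]⟩ (mul_one z), fun x => ?_⟩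
  rw [sub_mul, mul_sub, one_mul, mul_one, hz.2]

lemma pj_cut {z p : A} (hz : CP z) (hp : PJ p) : PJ (z * p) := by
  refine ⟨?_, ?_⟩
  · show z * p * (z * p) = z * p
    rw [mul_assoc, ← mul_assoc p z p, ← hz.2 p, mul_assoc, PJ.mul_self hp, ← mul_assoc, PJ.mul_self hz.1]
  · show star (z * p) = z * p
    rw [star_mul, PJ.star hp, PJ.star hz.1, hz.2]

lemma le_cut {z p q : A} (hz : CP z) (h : Le p q) : Le (z * p) (z * q) := by
  show z * p * (z * q) = z * p
  rw [mul_assoc, ← mul_assoc p z q, ← hz.2 p, mul_assoc z p q, (h : p * q = p), ← mul_assoc, PJ.mul_self hz.1]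

lemma le_self {z p : A} (hz : CP z) (hp : PJ p) : Le (z * p) p := by
  show z * p * p = z * p
  rw [mul_assoc, PJ.mul_self hp]

lemma cut_star {z v k : A} (hz : CP z) (h : star v * v = k) : star (z * v) * (z * v) = z * k := by
  rw [star_mul, PJ.star hz.1, ← h, mul_assoc, ← mul_assoc z z v, PJ.mul_self hz.1, ← mul_assoc, ← hz.2 (star v),
    mul_assoc]

lemma cut_star' {z v k : A} (hz : CP z) (h : v * star v = k) : (z * v) * star (z * v) = z * k := by
  rw [star_mul, PJ.star hz.1, ← h, mul_assoc, ← mul_assoc v, ← hz.2 (v * star v), ← mul_assoc, PJ.mul_self hz.1]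

/-- on a central cut -/
lemma cut {z g k h v : A} (hz : CP z) (hg : PJ g) (hk : PJ k) (hh : PJ h)
    (hkg : Le k g) (hhg : Le h g) (hfin : ¬ Infin g) (hv1 : star v * v = k)
    (hv2 : v * star v = h) (hs : Sub (z * (g - k)) (z * (g - h))) :
    Eqv (z * (g - k)) (z * (g - h)) := by
  have hf : ¬ Infin (z * g) := not_infin_sub hg (pj_cut hz hg) (le_self hz hg) hfin
  rw [mul_sub, mul_sub] at hs ⊢
  exact half (pj_cut hz hg) (pj_cut hz hk) (pj_cut hz hh) (le_cut hz hkg) (le_cut hz hhg) hf
    (cut_star hz hv1) (cut_star' hz hv2) hs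

/-- gluing over a central projection -/
lemma glue {z a b : A} (hz : CP z) (ha : PJ a) (hb : PJ b) (h1 : Eqv (z * a) (z * b))
    (h2 : Eqv ((1 - z) * a) ((1 - z) * b)) : Eqv a b := by
  obtain ⟨u, hu1, hu2⟩ := h1
  obtain ⟨w, hw1, hw2⟩ := h2
  have hz' := cp_compl hz
  have e1 : u * (z * a) = u := pi_right (pj_cut hz ha) hu1
  have e2 : w * ((1 - z) * a) = w := pi_right (pj_cut hz' ha) hw1
  have hzu : z * u = u := by
    calc z * u = z * (u * (z * a)) := by rw [e1]
      _ = (z * (u * z)) * a := by simp only [mul_assoc]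
      _ = ((u * z) * z) * a := by rw [hz.2 (u * z)]
      _ = u * (z * a) := by rw [mul_assoc u z z, PJ.mul_self hz.1, mul_assoc]
      _ = u := e1
  have hzw : (1 - z) * w = w := by
    calc (1 - z) * w = (1 - z) * (w * ((1 - z) * a)) := by rw [e2]
      _ = ((1 - z) * (w * (1 - z))) * a := by simp only [mul_assoc]
      _ = ((w * (1 - z)) * (1 - z)) * a := by rw [hz'.2 (w * (1 - z))]
      _ = w * ((1 - z) * a) := by rw [mul_assoc w (1 - z) (1 - z), PJ.mul_self hz'.1, mul_assoc]
      _ = w := e2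
  have hzz : z * (1 - z) = 0 := by rw [mul_sub, mul_one, PJ.mul_self hz.1, sub_self]
  have hzz' : (1 - z) * z = 0 := by rw [sub_mul, one_mul, PJ.mul_self hz.1, sub_self]
  have hzsu : star u * z = star u := star_absorb_left hz.1 hzu
  have hzsw : star w * (1 - z) = star w := star_absorb_left hz'.1 hzw
  have c1 : star u * w = 0 := by
    rw [← hzsu, ← hzw, mul_assoc, ← mul_assoc z, hzz, zero_mul, mul_zero]
  have c2 : star w * u = 0 := by
    rw [← hzsw, ← hzu, mul_assoc, ← mul_assoc (1 - z), hzz', zero_mul, mul_zero]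
  have c3 : u * star w = 0 := by
    calc u * star w = z * u * (star w * (1 - z)) := by rw [hzu, hzsw]
      _ = z * ((u * star w) * (1 - z)) := by simp only [mul_assoc]
      _ = z * ((1 - z) * (u * star w)) := by rw [hz'.2 (u * star w)]
      _ = 0 := by rw [← mul_assoc, hzz, zero_mul]
  have c4 : w * star u = 0 := by
    calc w * star u = (1 - z) * w * (star u * z) := by rw [hzw, hzsu]
      _ = (1 - z) * ((w * star u) * z) := by simp only [mul_assoc]
      _ = (1 - z) * (z * (w * star u)) := by rw [hz.2 (w * star u)]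
      _ = 0 := by rw [← mul_assoc, hzz', zero_mul]
  refine ⟨u + w, ?_, ?_⟩
  · rw [star_add, add_mul, mul_add, mul_add, hu1, hw1, c1, c2, add_zero, zero_add, ← add_mul,
      add_sub_cancel, one_mul]
  · rw [star_add, add_mul, mul_add, mul_add, hu2, hw2, c3, c4, add_zero, zero_add, ← add_mul,
      add_sub_cancel, one_mul]

end

theorem t_FINC : S_FINC.{u} := by
  intro A _ hGC g k h hg hfin hk hh hkg hhg hkh
  obtain ⟨v, hv1, hv2⟩ := hkh
  have hpe : PJ (g - k) := pj_sub hk hg hkg
  have hpf : PJ (g - h) := pj_sub hh hg hhg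
  obtain ⟨z, hz, h1, h2⟩ := hGC (g - k) (g - h) hpe hpf
  have e1 := cut hz hg hk hh hkg hhg hfin hv1 hv2 h1
  have e2 := cut (v := star v) (cp_compl hz) hg hh hk hhg hkg hfin (by rw [star_star, hv2])
    (by rw [star_star, hv1]) h2
  exact glue hz hpe hpf e1 (eqv_symm e2)

end Pool.Agent.U796.AWQ
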